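import Pool.Agent.Helper78.LK.Defs

/-!
# Project LK (MP_5a63b6_lc): goals

THEOREM.  For every `k` the knot diagram `w0 k` (`12 k + 1` crossings) represents the unknot, and no
sequence of replacements of tangles with together at most `k` crossings by equivalent tangles (with
planar isotopies in between) leads to a diagram with fewer crossings.

Every goal is a `Prop`, its proof is in its docstring; the goals named in brackets may be used as
hypotheses (`theorem gXX (h : YY) : XX`).  All formulas for times were tested by program.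
-/

set_option autoImplicit false

namespace Pool.Agent.Helper78.LK

open Pool.Agent.Helper50.KP

/-! ## A. Lower bound: moves and labels -/

/-- **APP**
Proof.  (1) Induction on `W` (cases on `Run.cons`; `q1 := p + q1`).  (2) Induction on the run: for one
piece the lengths of `S`, `S'` are `K.i`, `K.o`; `str (e :: w) n = if e.2 + e.1.i ≤ n then str w
(n - e.1.i + e.1.o) else none` is `rfl`. -/
def APP : Prop :=
  (∀ (D : Dat) (W W' : DW) (A C : List Lb) (q : ℤ), Run D (W ++ W') A C q ↔
    ∃ B q1 q2, Run D W A B q1 ∧ Run D W' B C q2 ∧ q = q1 + q2) ∧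
  ∀ (D : Dat) (W : DW) (A B : List Lb) (q : ℤ), Run D W A B q →
    str (und W) A.length = some B.length

/-- **IPL**  (planar isotopies do not change runs)
Proof.  Cases.  A run of two pieces is two splittings of lists `A = P ++ S ++ Q` with given length of
`P` (`List.append_inj`, or write `A = P ++ (rest)` with `rest` split by cases).  `zig i`: `A = P ++ Q`,
`|P| = i`, the cup gives `P ++ (l,d) :: (l,!d) :: Q`; the cap at `i + 1` joins `(l,!d)` with the head
`(l,!!d) = (l,d)` of `Q`, so the result is `A`.  From right to left: `A = P ++ (l,d) :: Q'` because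
`i + 1 ≤ |A|` by the hypothesis on `str`.  `zag` in the same way.  `pcap i s`: strands
`a, b, c` at `i, i+1, i+2`.  Free crossing: left side: `b, a, c`, the cap joins `a` and `c`, so
`c = (a.1, !a.2)`, result `b`, charge `ch s a b`; right side: `a, c, b`, the cap joins `a` and `c`, charge
`ch (!s) b c`, which is equal to `ch s a b` for `c = (a.1, !a.2)` (cases on `s`, `a.2`, `b.2`).  Fixed
crossing `x`: left side `a = (l x s d, d)`, `b = (l x (!s) e, e)`, result `(l x (!s) (!e), e)`,
`c = (l x s (!d), !d)`; right side: the crossing `X (!s)` with `b = (l x (!s) e, e)` above and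
`c = (l x (!!s) d', d')` below, and the cap joins `a` with `(l x s (!d'), d')`: `d' = !d`.  `pcup` is
symmetric: left side: `c` at the place `i`, the cup gives `(l,d), (l,!d)`, crossing of `c` and `(l,d)`;
right side: the cup gives `(l',d'), (l',!d')` at `i, i+1`, crossing `X (!s)` of `(l',!d')` and `c`;
free: `l' = l`, `d' = d`; fixed: `c = (l y s e, e)`, `(l,d) = (l y (!s) d, d)`, `(l',d') = (l y (!s) (!d), d)`.
`comm`: both pieces act on disjoint parts: `A = P ++ S ++ M ++ S1 ++ Q` with `|P| = i`, `|M| = d`,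
`|S| = K.i`, `|S'| = K.o`. -/
def IPL : Prop := ∀ (D : Dat) (L R : DW) (A B : List Lb) (q : ℤ), DPl L R →
  (str (und L) A.length).isSome → (str (und R) A.length).isSome → (Run D L A B q ↔ Run D R A B q)

/-- **IRD**  (Reidemeister moves with free crossings do not change runs)
Proof.  All crossings in `L`, `R` are free (`Pc.fix` is impossible).  `r1cup`: the cup gives
`(l,d), (l,!d)`, after the crossing `(l,!d), (l,d)`: the same as a cup with `!d`; the charge is a
multiple of `g l l = 0`.  `r1cap` in the same way.  `r2`: `a, b` → `b, a` → `a, b`, charges `ch s a b` and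
`ch (!s) b a = - ch s a b`.  `r3`: `a, b, c` → `c, b, a` on both sides, charges `ch s a b`, `ch t a c`,
`ch u b c` on both sides. -/
def IRD : Prop := ∀ (D : Dat) (L R : DW) (A B : List Lb) (q : ℤ), (∀ l, D.g l l = 0) → DRd L R →
  (∀ e ∈ L ++ R, isX e.1 = true → D.fr e.2.2 = true) →
  (str (und L) A.length).isSome → (str (und R) A.length).isSome → (Run D L A B q ↔ Run D R A B q)

/-- **INVR** [APP, IPL, IRD]
Proof.  Induction on the chain; for one step `DStep`: `W = U ++ L ++ V`.  By APP the run splits: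
`Run U [] M q1`, `Run L M M' q2`, `Run V M' [] q3`, `str (und U) 0 = some |M|`.  `str (u ++ v) n =
(str u n).bind (str v)` (`Pool.Agent.Helper50.KP.gSTR`, part 1, in `Pool/Agent/Helper50/KP/STR.lean`), so
`str (und L) |M|` and `str (und R) |M|` are `some _` by the validity of `W`, `W'`.  IPL or IRD
(in the right direction). -/
def INVR : Prop := ∀ (D : Dat) (T : Finset ℕ) (W W' : DW) (q : ℤ), (∀ l, D.g l l = 0) →
  (∀ x ∈ T, D.fr x = true) → Relation.ReflTransGen (DStep T) W W' →
  Run D W [] [] q → Run D W' [] [] q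

/-- **CNT**
Proof.  (1) `crossings (und W)` counts the crossings (`List.countP_map`, induction on `W`).
(2) Induction on the run: `|ch| ≤ 1`, because `|g| ≤ 1` and `|sg| = 1`.  (3) `DPl` preserves the multiset of
(is a crossing, name): `countP` of both sides agree (cases; `mir`); `DRd` with names in `T` involves only
free crossings, which `nfix` does not count. -/
def CNT : Prop :=
  (∀ (D : Dat) (W : DW), crossings (und W) = nfree D W + nfix D W) ∧
  (∀ (D : Dat) (W : DW) (A B : List Lb) (q : ℤ), (∀ l l', |D.g l l'| ≤ 1) → Run D W A B q →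
    q ≤ nfree D W) ∧
  ∀ (D : Dat) (T : Finset ℕ) (W W' : DW), (∀ x ∈ T, D.fr x = true) → DStep T W W' →
    nfix D W' = nfix D W

/-! ## B. Tangles -/

/-- **TQ**
Proof.  (1) `TStep n` is symmetric.  `str l m = str r m` for `Pl l r`, `Rd l r` if both are `some _`
(cases; see `pl_str` in `Pool/Agent/Helper50/KP/RED.lean`; for `zig`, `zag`, `r2`, the right side `[]` gives
`some m` and the left side `some m` if it fits); then `str (u ++ l ++ v) n` is determined by
`str (u ++ v) n = (str u n).bind (str v)` (`Pool.Agent.Helper50.KP.gSTR`).  (2) Induction on the chain; all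
words of the chain have the same `str`, so `u ++ w' ++ v` is valid.  (3) With (1) all words of the chain
have `str _ 0 = some 0`, so each `TStep 0` is a `Step`. (4) By definition. -/
def TQ : Prop :=
  (∀ (n : ℕ) (w w' : Word), Teq n w w' → Teq n w' w ∧ str w n = str w' n) ∧
  (∀ (m n : ℕ) (u v w w' : Word), str u m = some n → (str (u ++ w ++ v) m).isSome → Teq n w w' →
    Teq m (u ++ w ++ v) (u ++ w' ++ v)) ∧
  (∀ w : Word, IsDia w → Teq 0 w circle → Unknot w) ∧
  ∀ (n : ℕ) (u v l r : Word), (Pl l r ∨ Pl r l ∨ Rd l r ∨ Rd r l) → (str (u ++ l ++ v) n).isSome →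
    (str (u ++ r ++ v) n).isSome → Teq n (u ++ l ++ v) (u ++ r ++ v)

/-- **LIFT** [TQ]
Proof.  Lemma: if `Pl l r` (`Rd l r`) and `und L = l` then there is `R` with `und R = r` and `DPl L R`
(`DRd L R`) such that all names of crossings of `R` are names of crossings of `L`; and if `und R = r` then
there is `L` with `und L = l`, `DPl L R` (`DRd L R`) such that all names of crossings of `L` are `0` or names of
crossings of `R` (new pieces get the name `0`).  Induction on `Local`, with the additional claim that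
`w'` is a diagram (`IsDia`).  `refl`: `T = ∅`.  `iso`: the chain for `w'` and one more `DStep` with `DPl`
(split the decoration by `List.map_eq_append_iff`).  `rep`: we have `T`, `W'` with
`und W' = u ++ l ++ v`, so `W' = U ++ L ++ V`; `T' = T ∪ {names of the crossings of L}`,
`|T'| ≤ |T| + crossings l`.  Induction on the chain `Teq n l l'`: for every word `l''` of the chain there is a
decoration `L''` all of whose crossings have names in `insert 0 T'` and a chain of
`DStep (insert 0 T')` from `U ++ L ++ V` to `U ++ L'' ++ V` (validity: TQ (1), (2)).  `DStep` is monotone in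
`T`. -/
def LIFT : Prop := ∀ (k : ℕ) (w w' : Word) (W : DW), IsDia w → Local k w w' → und W = w →
  ∃ (T : Finset ℕ) (W' : DW), T.card ≤ k ∧ und W' = w' ∧
    Relation.ReflTransGen (DStep (insert 0 T)) W W'

/-! ## C. The diagram and its labels -/

/-- **CLS**
Proof.  `N x = #{y < x | y ∉ P}`, `F = N M`, `cl x = N x % F`.  `cl M = 0 = cl 0`.  If `y ∈ P`
then `N (y + 1) = N y`.  If `p < q < M` then `N q - N p = #{p ≤ y < q, y ∉ P} ≥ (q - p) - |P| > 0` and
`F - (N q - N p) = #{y < p or q ≤ y < M, y ∉ P} ≥ M - (q - p) - |P| > 0`, so `N p`, `N q` are not congruent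
modulo `F`. -/
def CLS : Prop := ∀ (M : ℕ) (P : Finset ℕ), ∃ cl : ℕ → ℕ, cl 0 = cl M ∧
  (∀ y ∈ P, cl y = cl (y + 1)) ∧
  ∀ p q, p < q → q < M → P.card < q - p → P.card < M - (q - p) → cl p ≠ cl q

/-- **FAR**
Proof.  `unfold tm tX tY sn Far`, cases on the parities and the four ranges, `omega`.  (For
`sn x ≠ sn y` the sum of the two distances is large enough; tested for `k ≤ 6`.) -/
def FAR : Prop := ∀ k x y : ℕ, 1 ≤ x → x ≤ 12 * k + 1 → 1 ≤ y → y ≤ 12 * k + 1 →
  (∀ o, tm k x o ≤ 24 * k + 1) ∧ Far k (tm k x true) (tm k x false) ∧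
  (sn k x ≠ sn k y → Far k (tm k x true) (tm k y true) ∨ Far k (tm k x false) (tm k y false))

/-- **GOD** [CLS, FAR]
Proof.  (1) CLS with `M = 24 k + 2` and `P` the set of all `tm k x o`, `x ∈ T`, `o = true, false`:
`|P| ≤ 2 |T| ≤ 2 k`.  `Far` means that the distance is at least `2 k + 1` in both directions
(`24 k + 2 - (22 k + 1) = 2 k + 1`).  (2) `g p p = 0`: `Has p p` would give `cl (tm x true) = cl (tm x false)`,
but these are far (FAR).  `|g| ≤ 1` is clear.  (3) `Has (...) (sn k x)` holds for `x` itself, and `Has`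
with the other sign would give `y ∈ T` with equal labels and `sn y ≠ sn x`, impossible by FAR. -/
def GOD : Prop :=
  (∀ (k : ℕ) (T : Finset ℕ), T.card ≤ k → ∃ cl, Good k T cl) ∧
  ∀ (k : ℕ) (T : Finset ℕ) (cl : ℕ → ℕ), Good k T cl →
    (∀ p, (datOf k T cl).g p p = 0) ∧ (∀ p q, |(datOf k T cl).g p q| ≤ 1) ∧
    ∀ x ∈ T, 1 ≤ x → x ≤ 12 * k + 1 →
      (datOf k T cl).g (cl (tm k x true)) (cl (tm k x false)) = sn k x

/-- **CRO** [GOD]  (one crossing)
Proof.  If `x ∉ T` then `x` is not free (`x ≠ 0`): this is `Pc.fix` for `datOf` (`!!d = d`).  If `x ∈ T`: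
`cl (tm k x o + n) = cl (tm k x o)` for `n = 0, 1` (Good), so the labels on both sides are the same and
`Pc.free` applies with the charge `g (cl (tm x true)) (cl (tm x false)) * (sg s * sg d * sg e) =
sn k x * sn k x = 1` (cases on `s`). -/
def CRO : Prop := ∀ (k : ℕ) (T : Finset ℕ) (cl : ℕ → ℕ), Good k T cl → ∀ (x : ℕ) (s d e : Bool),
  1 ≤ x → x ≤ 12 * k + 1 → sn k x = sg s * sg d * sg e →
  Pc (datOf k T cl) (.X s) x
    [(cl (tm k x s + if d then 0 else 1), d), (cl (tm k x (!s) + if e then 0 else 1), e)]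
    [(cl (tm k x (!s) + if e then 1 else 0), e), (cl (tm k x s + if d then 1 else 0), d)]
    (if x ∈ T then 1 else 0)

/-- **TWR** [APP]
Proof.  Induction on `n`: `tw s p c (n + 1) = tw s p c n ++ [(X s, p, c + 1 + n)]`
(`List.range_succ`), `Finset.sum_range_succ`. -/
def TWR : Prop := ∀ (D : Dat) (s : Bool) (p c n : ℕ) (X Y : ℕ → Lb) (q : ℕ → ℤ),
  (∀ i < n, Pc D (.X s) (c + 1 + i) (pr X Y i) (pr X Y (i + 1)) (q i)) →
  ∀ A B : List Lb, A.length = p →
    Run D (tw s p c n) (A ++ pr X Y 0 ++ B) (A ++ pr X Y n ++ B) (∑ i ∈ Finset.range n, q i)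

/-- **INI** [APP, GOD, CRO, TWR]
Proof.  `cl` from GOD (1), `D = datOf k T cl`.  Runs of the four twists by TWR with the strands
(`i` = number of crossings of the twist already passed)
`A`: `X i = (cl (24k+2-i), false)`, `Y i = (cl (12k+1-i), false)`, place 1, names `1 + i`;
`B`: `X i = (cl i, true)`, `Y i = (cl (20k+2-i), false)`, place 0, names `4k + 1 + i`;
`C`: `X i = (cl (8k+1-i), false)`, `Y i = (cl (12k+1+i), true)`, place 2, names `6k + 1 + i`;
`D`: `X i = (cl (18k+2-i), false)`, `Y i = (cl (6k+1-i), false)`, place 1, names `8k + 1 + i`.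
The hypothesis of TWR is CRO for `x = c + 1 + i`: `tX k x`, `tY k x` are the times (`tm k x s` is the time
of the strand which is on top: `X` for even `i`, `Y` for odd `i`, because the top strand is over iff
`s = true`), e.g. in `A` `tX = 24k+1-i`, label on the left `cl (tX + 1)`, on the right `cl tX`
(direction `false`), in `B` the strand `X` has the label `cl tX` on the left and `cl (tX + 1)` on the right.
Charge `q i = if x ∈ T then 1 else 0`.  Signs: `A`: `sg true * sg false * sg false = 1`, `B`: `-1`, `C`: `1`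
(`sg false * sg false * sg true`), `D`: `-1`.  The cups: `(cl 0, true), (cl (24k+2), false)` (`cl 0 = cl (24k+2)`)
and `(cl (12k+1), false), (cl (12k+1), true)`.  All joints fit: after `A` (`4k` crossings) the strands are
`(cl 0, true), (cl (20k+2), false), (cl (8k+1), false), (cl (12k+1), true)`; after `B`
`(cl (2k), true), (cl (18k+2), false), (cl (8k+1), false), (cl (12k+1), true)`; after `C`
`(cl (2k), true), (cl (18k+2), false), (cl (6k+1), false), (cl (14k+1), true)`; after `D` (an odd number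
of crossings) `(cl (2k), true), (cl (2k), false), (cl (14k+1), false), (cl (14k+1), true)`; two caps.
The total charge is the number of the free crossings (`nfree` of a twist is the sum of the `q i`). -/
def INI : Prop := ∀ (k : ℕ) (T : Finset ℕ), T.card ≤ k → ∃ D : Dat,
  (∀ x, D.fr x = decide (x = 0 ∨ x ∈ T)) ∧ (∀ l, D.g l l = 0) ∧ (∀ l l', |D.g l l'| ≤ 1) ∧
    Run D (W0 k) [] [] (nfree D (W0 k))

/-- **KNT**
Proof.  (1) `und` of a twist is a `List.replicate`.  (2) `str` of the cups is `some 4`, the twists keep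
`4` strands, the caps give `0`.  `Lab`: `c = [x, y]`, the strands after the cups are `x, x, y, y`
(`List.take`, `List.drop` of explicit lists), a twist with an even number of crossings does not change
a list of four bits (induction on the half), a twist with `4 k + 1` crossings at the place 1 exchanges
the middle strands: `x, y, x, y`; the cap at `0` gives `x = y`.  (3) `List.countP_append`,
`List.countP_replicate`. -/
def KNT : Prop := ∀ k : ℕ, und (W0 k) = w0 k ∧ IsKnot (w0 k) ∧ crossings (w0 k) = 12 * k + 1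

/-- **LOW** [TQ, LIFT, INVR, CNT, INI, KNT]
Proof.  LIFT with `W0 k`: `T`, `W'` with `|T| ≤ j ≤ k`.  INI: `D`.  By INVR (for `insert 0 T`) `W'` has a
run with the charge `nfree D (W0 k)`, so `nfree D (W0 k) ≤ nfree D W'` by CNT (2), and
`nfix D W' = nfix D (W0 k)` by CNT (3) along the chain.  CNT (1) twice. -/
def LOW : Prop := ∀ (k j : ℕ) (w' : Word), j ≤ k → Local j (w0 k) w' → 12 * k + 1 ≤ crossings w'

/-! ## D. The diagram is a diagram of the unknot -/

/-- **BIC** [TQ]
Proof.  (1) Induction on `w`: every crossing needs 2 strands at places `≤ 2`, `3`.  (2) `bi` of a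
concatenation; `bi (bi w) = w` (`mir (mir K) = K`).  (3) Induction on `w`: `(e :: w) ++ bi (e :: w) =
[e] ++ (w ++ bi w) ++ [(mir e.1, e.2)]`, TQ (2), then a bigon (`Rd.r2`).  Second part: apply it to `bi w`. -/
def BIC : Prop :=
  (∀ w : Word, Br4 w → str w 4 = some 4 ∧ Br4 (bi w)) ∧
  (∀ w w' : Word, bi (w ++ w') = bi w' ++ bi w ∧ bi (bi w) = w) ∧
  ∀ w : Word, Br4 w → Teq 4 (w ++ bi w) [] ∧ Teq 4 (bi w ++ w) []

/-- **REL** [TQ]
Proof.  Write `1, 2, 3` for `(X true, 0)`, `(X true, 1)`, `(X true, 2)` and `1', 2', 3'` for `X false`.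
Claim: `2 2 1 3' 2' 2'` is equivalent to `(2 1 3' 2')(3 1')(2 1 3' 2')`.  From right to left:
`1' 2 1 → 2 1 2'` (`r3` with `i = 0`, `(s,t,u) = (false, true, true)`): `2 1 3' 2' 3 2 1 2' 3' 2'`;
`2' 3 2 → 3 2 3'` (`r3`, `i = 1`): `2 1 3' 3 2 3' 1 2' 3' 2'`; bigon `3' 3`: `2 1 2 3' 1 2' 3' 2'`; exchange
`3' 1 → 1 3'` (`Pl.comm`): `2 1 2 1 3' 2' 3' 2'`; `1 2 1 → 2 1 2`: `2 2 1 2 3' 2' 3' 2'`;
`3' 2' 3' → 2' 3' 2'` (`r3` backward, `i = 1`): `2 2 1 2 2' 3' 2' 2'`; bigon `2 2'`: `2 2 1 3' 2' 2'`.
(`str _ 4` of all these explicit words is `some 4` by `rfl` or `decide`.) -/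
def REL : Prop := Teq 4 (xW 2) (xW 1 ++ bi (xW 0) ++ xW 1)

/-- **CUV** [TQ]
Proof.  (1) `cup 0, cup 2, X t 0, X f 2`: exchange `cup 2` and `X t 0`; `r1cup` twice.
(2) `cup 0, cup 2, X t 1, X t 0, X f 2, X f 1`: `pcup 1`: `cup 0, cup 1, X f 2, X t 0, X f 2, X f 1`; exchange:
`cup 0, cup 1, X t 0, X f 2, X f 2, X f 1`; `pcup 0`: `cup 0, cup 0, X f 1, X f 2, X f 2, X f 1`; exchange of the cups
(`comm cup cup 0 0`): `cup 0, cup 2, X f 1, X f 2, X f 2, X f 1`; `pcup 1` (`s = false`):
`cup 0, cup 1, X t 2, X f 2, X f 2, X f 1`; bigon: `cup 0, cup 1, X f 2, X f 1`; `pcup 1` backward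
(`s = true`): `cup 0, cup 2, X t 1, X f 1`; bigon.  (3) `cup 0, cup 2, X f 1, cap 0, cap 0`: `pcup 1`:
`cup 0, cup 1, X t 2, cap 0, cap 0`; exchange: `cup 0, cup 1, cap 0, X t 0, cap 0`; `zag 0`:
`cup 0, X t 0, cap 0`; `r1cup 0`. -/
def CUV : Prop := Teq 0 (cups ++ uW) cups ∧ Teq 0 (cups ++ xW 1) cups ∧
  Teq 0 (cups ++ [(.X false, 1)] ++ [(.cap, 0), (.cap, 0)]) circle

/-- **XRC** [TQ, BIC, REL, CUV]
Proof.  (1) Clear (induction).  Claim: `xW (b + 2) ~ xW (b + 1) ++ bi (xW b) ++ xW (b + 1)` (with 4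
strands).  `b = 0`: REL.  Step: conjugate by `2 = (X true, 1)`: insert `2' 2` between the three
factors (bigons), and `bi (xW (b + 1)) = 2 ++ bi (xW b) ++ 2'`.  (2) Induction: the claim for `b` and
`b + 1` implies it for `b + 2`: `cups ++ xW (b+1) ++ bi (xW b) ++ xW (b+1) ~ cups ++ bi (xW b) ++ xW (b+1) ~
cups ++ xW (b+1) ~ cups`, where `cups ++ bi x ~ cups ++ x ++ bi x ~ cups` for `x = xW b`.  (3) Induction
on `a`. -/
def XRC : Prop := (∀ b, Br4 (xW b)) ∧ (∀ b, Teq 0 (cups ++ xW b) cups) ∧
  ∀ a b, Teq 0 (cups ++ (List.replicate a (xW b)).flatten) cups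

/-- **PWR** [TQ, BIC]
Proof.  `xW b = 2^b ++ uW ++ 2'^b` (`List.replicate_succ`, `replicate_succ'`).  By induction on `a`,
`(xW b)^a ~ 2^b ++ (uW)^a ++ 2'^b` (with 4 strands: between the factors `2'^b 2^b` cancels), and
`(uW)^a ~ 1^a ++ 3'^a` (exchange `3'` with the `1`s). -/
def PWR : Prop := ∀ a b : ℕ, Teq 4
  (List.replicate b (.X true, 1) ++ List.replicate a (.X true, 0) ++
    List.replicate a (.X false, 2) ++ List.replicate b (.X false, 1))
  ((List.replicate a (xW b)).flatten)

/-- **UNT** [TQ, CUV, XRC, PWR, KNT]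
Proof.  `List.replicate (4k+1) (X false, 1) = List.replicate (4k) _ ++ [_]`.  `w0 k ~ cups ++ (xW (4k))^(2k) ++
[(X false, 1)] ++ caps ~ cups ++ [(X false, 1)] ++ caps ~ circle` (TQ (2) for contexts), TQ (3). -/
def UNT : Prop := ∀ k : ℕ, Unknot (w0 k)

end Pool.Agent.Helper78.LK
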