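import Mathlib
import Pool.Agent.Helper50.KP.Defs

/-!
# Project LK (MP_5a63b6_lc): unknot diagrams which no rewriting of small tangles simplifies

Definitions.  Diagrams are those of `Pool.Agent.Helper50.KP.Defs` (words of cups, caps and crossings).
-/

set_option autoImplicit false

namespace Pool.Agent.Helper78.LK

open Pool.Agent.Helper50.KP

/-! ### Replacement of tangles -/

/-- Two words with `n` strands on the left differ by a planar isotopy or a Reidemeister move, in one
of the two directions. -/
def TStep (n : ℕ) (w w' : Word) : Prop :=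
  (str w n).isSome ∧ (str w' n).isSome ∧ ∃ u v l r, (Pl l r ∨ Pl r l ∨ Rd l r ∨ Rd r l) ∧
    w = u ++ l ++ v ∧ w' = u ++ r ++ v

/-- Equivalent tangles with `n` strands on the left. -/
def Teq (n : ℕ) : Word → Word → Prop := Relation.ReflTransGen (TStep n)

/-- Two diagrams differ by one planar isotopy. -/
def Iso1 (w w' : Word) : Prop :=
  IsDia w ∧ IsDia w' ∧ ∃ u v l r, (Pl l r ∨ Pl r l) ∧ w = u ++ l ++ v ∧ w' = u ++ r ++ v

/-- `Local k w w'`: the diagram `w'` is obtained from `w` by planar isotopies and by replacing tangles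
by equivalent tangles; `k` is the sum of the numbers of crossings of the tangles that are replaced
(at the time when they are replaced). -/
inductive Local : ℕ → Word → Word → Prop
  | refl (w : Word) : Local 0 w w
  | iso {k : ℕ} {w w' w'' : Word} : Local k w w' → Iso1 w' w'' → Local k w w''
  | rep {k n : ℕ} {w : Word} (u v l l' : Word) : Local k w (u ++ l ++ v) → str u 0 = some n →
      Teq n l l' → Local (k + crossings l) w (u ++ l' ++ v)

/-- The diagram: two cups, twists of `4 k`, `2 k`, `2 k` and `4 k + 1` crossings, two caps. -/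
def w0 (k : ℕ) : Word :=
  [(.cup, 0), (.cup, 2)] ++ List.replicate (4 * k) (.X true, 1) ++
    List.replicate (2 * k) (.X true, 0) ++ List.replicate (2 * k) (.X false, 2) ++
    List.replicate (4 * k + 1) (.X false, 1) ++ [(.cap, 0), (.cap, 0)]

/-! ### Decorated words -/

/-- A decorated piece: the piece, its place, its name. -/
abbrev DEv : Type := Kind × ℕ × ℕ

/-- Decorated words. -/
abbrev DW : Type := List DEv

/-- The word without names. -/
def und (W : DW) : Word := W.map fun e => (e.1, e.2.1)

/-- Is it a crossing? -/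
def isX : Kind → Bool
  | .X _ => true
  | _ => false

/-- Planar isotopies of decorated words. -/
inductive DPl : DW → DW → Prop
  | zig (i x y : ℕ) : DPl [(.cup, i, x), (.cap, i + 1, y)] []
  | zag (i x y : ℕ) : DPl [(.cup, i + 1, x), (.cap, i, y)] []
  | pcap (i : ℕ) (s : Bool) (x y : ℕ) :
      DPl [(.X s, i, x), (.cap, i + 1, y)] [(.X (!s), i + 1, x), (.cap, i, y)]
  | pcup (i : ℕ) (s : Bool) (x y : ℕ) :
      DPl [(.cup, i + 1, x), (.X s, i, y)] [(.cup, i, x), (.X (!s), i + 1, y)]
  | comm (K K' : Kind) (i d x y : ℕ) :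
      DPl [(K, i, x), (K', i + K.o + d, y)] [(K', i + K.i + d, y), (K, i, x)]

/-- Reidemeister moves of decorated words. -/
inductive DRd : DW → DW → Prop
  | r1cup (i : ℕ) (s : Bool) (x y : ℕ) : DRd [(.cup, i, x), (.X s, i, y)] [(.cup, i, x)]
  | r1cap (i : ℕ) (s : Bool) (x y : ℕ) : DRd [(.X s, i, x), (.cap, i, y)] [(.cap, i, y)]
  | r2 (i : ℕ) (s : Bool) (x y : ℕ) : DRd [(.X s, i, x), (.X (!s), i, y)] []
  | r3 (i : ℕ) (s t u : Bool) (x y z : ℕ) : (s = u → t = s) →
      DRd [(.X s, i, x), (.X t, i + 1, y), (.X u, i, z)]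
        [(.X u, i + 1, z), (.X t, i, y), (.X s, i + 1, x)]

/-- One move; Reidemeister moves are allowed only with crossings whose names are in `T`. -/
def DStep (T : Finset ℕ) (W W' : DW) : Prop :=
  (str (und W) 0).isSome ∧ (str (und W') 0).isSome ∧ ∃ U V L R,
    (DPl L R ∨ DPl R L ∨ ((DRd L R ∨ DRd R L) ∧ ∀ e ∈ L ++ R, isX e.1 = true → e.2.2 ∈ T)) ∧
    W = U ++ L ++ V ∧ W' = U ++ R ++ V

/-! ### Labelled runs -/

/-- The label of a strand: a number and the direction (`true`: from left to right). -/
abbrev Lb : Type := ℕ × Bool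

/-- `fr x`: the crossings with the name `x` are free.  `l x o d`: the label on the left of the (other)
crossing `x` of its over strand (`o = true`) or under strand (`o = false`) if this strand has the
direction `d`; the label on the right is then `l x o (!d)`.  `g`: weight of a pair of labels. -/
structure Dat where
  /-- free names -/
  fr : ℕ → Bool
  /-- labels at the crossings that are not free -/
  l : ℕ → Bool → Bool → ℕ
  /-- weights -/
  g : ℕ → ℕ → ℤ

/-- `1` or `-1`. -/
def sg (b : Bool) : ℤ := if b then 1 else -1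

/-- The charge of a free crossing `X s`; `a` is the strand from above (on the left), `b` the strand
from below. -/
def ch (D : Dat) (s : Bool) (a b : Lb) : ℤ :=
  (if s then D.g a.1 b.1 else D.g b.1 a.1) * (sg s * sg a.2 * sg b.2)

/-- The rule for one piece: strands that enter, strands that leave, charge. -/
inductive Pc (D : Dat) : Kind → ℕ → List Lb → List Lb → ℤ → Prop
  | cup (x l : ℕ) (d : Bool) : Pc D .cup x [] [(l, d), (l, !d)] 0
  | cap (x l : ℕ) (d : Bool) : Pc D .cap x [(l, d), (l, !d)] [] 0
  | free (s : Bool) (x : ℕ) (a b : Lb) : D.fr x = true → Pc D (.X s) x [a, b] [b, a] (ch D s a b)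
  | fix (s : Bool) (x : ℕ) (d e : Bool) : D.fr x = false →
      Pc D (.X s) x [(D.l x s d, d), (D.l x (!s) e, e)]
        [(D.l x (!s) (!e), e), (D.l x s (!d), d)] 0

/-- Runs: the strands on the left, the strands on the right, the total charge. -/
inductive Run (D : Dat) : DW → List Lb → List Lb → ℤ → Prop
  | nil (L : List Lb) : Run D [] L L 0
  | cons {K : Kind} {k x : ℕ} {W : DW} {A B S S' L : List Lb} {p q : ℤ} : A.length = k →
      Pc D K x S S' p → Run D W (A ++ S' ++ B) L q → Run D ((K, k, x) :: W) (A ++ S ++ B) L (p + q)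

/-- The number of the free crossings. -/
def nfree (D : Dat) (W : DW) : ℕ := W.countP fun e => isX e.1 && D.fr e.2.2

/-- The number of the other crossings. -/
def nfix (D : Dat) (W : DW) : ℕ := W.countP fun e => isX e.1 && !D.fr e.2.2

/-! ### The decorated diagram -/

/-- Twist: `n` crossings `X s` at the place `p` with the names `c + 1, ..., c + n`. -/
def tw (s : Bool) (p c n : ℕ) : DW := (List.range n).map fun i => (.X s, p, c + 1 + i)

/-- The diagram `w0 k`, the crossings have the names `1, ..., 12 k + 1`. -/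
def W0 (k : ℕ) : DW :=
  [(.cup, 0, 0), (.cup, 2, 0)] ++ tw true 1 0 (4 * k) ++ tw true 0 (4 * k) (2 * k) ++
    tw false 2 (6 * k) (2 * k) ++ tw false 1 (8 * k) (4 * k + 1) ++ [(.cap, 0, 0), (.cap, 0, 0)]

/-- The time (`0, ..., 24 k + 1`) at which the knot passes the crossing `x` on the strand which comes
from above at the first crossing of its twist. -/
def tX (k x : ℕ) : ℕ :=
  if x ≤ 4 * k then 24 * k + 2 - x else if x ≤ 6 * k then x - 1 - 4 * k
  else if x ≤ 8 * k then 14 * k + 1 - x else 26 * k + 2 - x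

/-- The time for the other strand. -/
def tY (k x : ℕ) : ℕ :=
  if x ≤ 4 * k then 12 * k + 1 - x else if x ≤ 6 * k then 24 * k + 2 - x
  else if x ≤ 8 * k then 6 * k + x else 14 * k + 1 - x

/-- The time of the over pass (`o = true`) and of the under pass (`o = false`) of the crossing `x`. -/
def tm (k x : ℕ) (o : Bool) : ℕ :=
  if (decide (x % 2 = 1) == decide (x ≤ 6 * k)) == o then tX k x else tY k x

/-- The sign of the crossing `x`. -/
def sn (k x : ℕ) : ℤ :=
  if x ≤ 4 * k then 1 else if x ≤ 6 * k then -1 else if x ≤ 8 * k then 1 else -1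

/-- The times `p, q` are far from each other (cyclically, modulo `24 k + 2`). -/
def Far (k p q : ℕ) : Prop :=
  (p + (2 * k + 1) ≤ q ∧ q ≤ p + (22 * k + 1)) ∨ (q + (2 * k + 1) ≤ p ∧ p ≤ q + (22 * k + 1))

/-- Good labels `cl` of the times for the set `T` of free crossings. -/
def Good (k : ℕ) (T : Finset ℕ) (cl : ℕ → ℕ) : Prop :=
  cl 0 = cl (24 * k + 2) ∧
  (∀ x ∈ T, 1 ≤ x → x ≤ 12 * k + 1 → ∀ o, cl (tm k x o) = cl (tm k x o + 1)) ∧
  ∀ p q, p ≤ 24 * k + 1 → q ≤ 24 * k + 1 → Far k p q → cl p ≠ cl q

/-- `x` is a crossing with the name in `T`, the labels `p, q` of its passes and the sign `e`. -/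
def Has (k : ℕ) (T : Finset ℕ) (cl : ℕ → ℕ) (p q : ℕ) (e : ℤ) : Prop :=
  ∃ x ∈ T, 1 ≤ x ∧ x ≤ 12 * k + 1 ∧ cl (tm k x true) = p ∧ cl (tm k x false) = q ∧ sn k x = e

open scoped Classical in
/-- The data for `T` and `cl`. -/
noncomputable def datOf (k : ℕ) (T : Finset ℕ) (cl : ℕ → ℕ) : Dat where
  fr x := decide (x = 0 ∨ x ∈ T)
  l x o d := cl (tm k x o + if d then 0 else 1)
  g p q := if Has k T cl p q 1 then 1 else if Has k T cl p q (-1) then -1 else 0

/-- The pair of the strands of a twist after `i` crossings. -/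
def pr (X Y : ℕ → Lb) (i : ℕ) : List Lb := if i % 2 = 0 then [X i, Y i] else [Y i, X i]

/-! ### Braid words -/

/-- Two cups. -/
def cups : Word := [(.cup, 0), (.cup, 2)]

/-- `σ₁ σ₃⁻¹`. -/
def uW : Word := [(.X true, 0), (.X false, 2)]

/-- `σ₂^b (σ₁ σ₃⁻¹) σ₂^(-b)`. -/
def xW : ℕ → Word
  | 0 => uW
  | b + 1 => (.X true, 1) :: xW b ++ [(.X false, 1)]

/-- The mirror image of a piece. -/
def mir : Kind → Kind
  | .X s => .X (!s)
  | K => K

/-- The inverse of a braid word. -/
def bi (w : Word) : Word := (w.map fun e => (mir e.1, e.2)).reverse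

/-- Braid words with four strands. -/
def Br4 (w : Word) : Prop := ∀ e ∈ w, isX e.1 = true ∧ e.2 ≤ 2

end Pool.Agent.Helper78.LK
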