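import Pool.Agent.Helper78.LK.Goals

/-!
# Project LK: packet IRD
-/

set_option autoImplicit false

namespace Pool.Agent.Helper78.LK

open Pool.Agent.Helper50.KP

section
variable {D : Dat}

theorem run_nil {A L : List Lb} {r : ℤ} : Run D [] A L r ↔ A = L ∧ r = 0 := by
  constructor
  · intro h
    cases h
    exact ⟨rfl, rfl⟩
  · rintro ⟨rfl, rfl⟩
    exact Run.nil _

theorem run_cup {k x : ℕ} {W : DW} {A L : List Lb} {r : ℤ} : Run D ((.cup, k, x) :: W) A L r ↔
    ∃ P l d Q, A = P ++ Q ∧ P.length = k ∧ Run D W (P ++ (l, d) :: (l, !d) :: Q) L r := by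
  constructor
  · intro h
    cases h with
    | cons hl hp hr =>
      rename_i P Q S S' p q
      cases hp with
      | cup x l d =>
        refine ⟨P, l, d, Q, by simp, hl, ?_⟩
        simpa using hr
  · rintro ⟨P, l, d, Q, rfl, hl, hr⟩
    have := Run.cons (D := D) (K := .cup) (x := x) (A := P) (B := Q) (S := []) hl
      (Pc.cup x l d) (W := W) (L := L) (q := r) (by simpa using hr)
    simpa using this

theorem run_cap {k x : ℕ} {W : DW} {A L : List Lb} {r : ℤ} : Run D ((.cap, k, x) :: W) A L r ↔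
    ∃ P l d Q, A = P ++ (l, d) :: (l, !d) :: Q ∧ P.length = k ∧ Run D W (P ++ Q) L r := by
  constructor
  · intro h
    cases h with
    | cons hl hp hr =>
      rename_i P Q S S' p q
      cases hp with
      | cap x l d =>
        refine ⟨P, l, d, Q, by simp, hl, ?_⟩
        simpa using hr
  · rintro ⟨P, l, d, Q, rfl, hl, hr⟩
    have := Run.cons (D := D) (K := .cap) (x := x) (A := P) (B := Q) hl
      (Pc.cap x l d) (W := W) (L := L) (q := r) (by simpa using hr)
    simpa using this

theorem run_X {s : Bool} {k x : ℕ} {W : DW} {A L : List Lb} {r : ℤ} (hf : D.fr x = true) :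
    Run D ((.X s, k, x) :: W) A L r ↔
    ∃ P a b Q q, A = P ++ a :: b :: Q ∧ P.length = k ∧ Run D W (P ++ b :: a :: Q) L q ∧
      r = ch D s a b + q := by
  constructor
  · intro h
    cases h with
    | cons hl hp hr =>
      rename_i P Q S S' p q
      cases hp with
      | free s x a b h' => exact ⟨P, a, b, Q, q, by simp, hl, by simpa using hr, rfl⟩
      | fix s x d e h' => rw [hf] at h'; exact absurd h' (by simp)
  · rintro ⟨P, a, b, Q, q, rfl, hl, hr, rfl⟩
    have := Run.cons (D := D) (K := .X s) (x := x) (A := P) (B := Q) hl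
      (Pc.free s x a b hf) (W := W) (L := L) (q := q) (by simpa using hr)
    simpa using this

end

theorem spl2 {α : Type} {P P' Q Q' : List α} {a b a' b' : α} (h : P ++ a :: b :: Q = P' ++ a' :: b' :: Q')
    (hl : P.length = P'.length) : P = P' ∧ a = a' ∧ b = b' ∧ Q = Q' := by
  obtain ⟨h1, h2⟩ := List.append_inj h hl
  simp only [List.cons.injEq] at h2
  exact ⟨h1, h2.1, h2.2.1, h2.2.2⟩

theorem cut2 {α : Type} {A : List α} {i : ℕ} (h : i + 2 ≤ A.length) :
    ∃ P a b Q, A = P ++ a :: b :: Q ∧ P.length = i := by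
  refine ⟨A.take i, A[i], A[i + 1], A.drop (i + 2), ?_, ?_⟩
  · rw [List.cons_getElem_drop_succ, List.cons_getElem_drop_succ, List.take_append_drop]
  · rw [List.length_take]
    omega

theorem ch_rev (D : Dat) (s : Bool) (a b : Lb) : ch D (!s) b a = - ch D s a b := by
  obtain ⟨a, d⟩ := a
  obtain ⟨b, e⟩ := b
  unfold ch sg
  cases s <;> cases d <;> cases e <;> simp

theorem ch_self (D : Dat) (hg : ∀ l, D.g l l = 0) (s : Bool) (l : ℕ) (d e : Bool) :
    ch D s (l, d) (l, e) = 0 := by
  unfold ch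
  simp [hg]

theorem gIRD : IRD := by
  intro D L R A B q hg hR hfr hL1 hR1
  cases hR with
  | r1cup i s x y =>
    have hy : D.fr y = true := hfr (.X s, i, y) (by simp) rfl
    rw [run_cup, run_cup]
    constructor
    · rintro ⟨P, l, d, Q, rfl, hl, h⟩
      rw [run_X hy] at h
      obtain ⟨P', a, b, Q', q', e, hl', h', rfl⟩ := h
      obtain ⟨rfl, rfl, rfl, rfl⟩ := spl2 e (by omega)
      rw [run_nil] at h'
      obtain ⟨rfl, rfl⟩ := h'
      refine ⟨P, l, !d, Q, rfl, hl, ?_⟩
      rw [run_nil, ch_self D hg]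
      exact ⟨by simp, by simp⟩
    · rintro ⟨P, l, d, Q, rfl, hl, h⟩
      rw [run_nil] at h
      obtain ⟨rfl, rfl⟩ := h
      refine ⟨P, l, !d, Q, rfl, hl, ?_⟩
      rw [run_X hy]
      refine ⟨P, _, _, Q, 0, rfl, hl, ?_, ?_⟩
      · rw [run_nil]
        simp
      · rw [ch_self D hg]
        simp
  | r1cap i s x y =>
    have hx : D.fr x = true := hfr (.X s, i, x) (by simp) rfl
    rw [run_X hx, run_cap]
    constructor
    · rintro ⟨P, a, b, Q, q', rfl, hl, h, rfl⟩
      rw [run_cap] at h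
      obtain ⟨P', l, d, Q', e, hl', h'⟩ := h
      obtain ⟨rfl, rfl, rfl, rfl⟩ := spl2 e (by omega)
      rw [run_nil] at h'
      obtain ⟨rfl, rfl⟩ := h'
      refine ⟨P, l, !d, Q, by simp, hl, ?_⟩
      rw [run_nil, ch_self D hg]
      exact ⟨rfl, by simp⟩
    · rintro ⟨P, l, d, Q, rfl, hl, h⟩
      rw [run_nil] at h
      obtain ⟨rfl, rfl⟩ := h
      refine ⟨P, (l, d), (l, !d), Q, 0, rfl, hl, ?_, ?_⟩
      · rw [run_cap]
        refine ⟨P, l, !d, Q, by simp, hl, ?_⟩
        rw [run_nil]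
        exact ⟨rfl, rfl⟩
      · rw [ch_self D hg]
        simp
  | r2 i s x y =>
    have hx : D.fr x = true := hfr (.X s, i, x) (by simp) rfl
    have hy : D.fr y = true := hfr (.X (!s), i, y) (by simp) rfl
    rw [run_X hx, run_nil]
    constructor
    · rintro ⟨P, a, b, Q, q', rfl, hl, h, rfl⟩
      rw [run_X hy] at h
      obtain ⟨P', a', b', Q', q'', e, hl', h', rfl⟩ := h
      obtain ⟨rfl, rfl, rfl, rfl⟩ := spl2 e (by omega)
      rw [run_nil] at h'
      obtain ⟨rfl, rfl⟩ := h'
      refine ⟨rfl, ?_⟩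
      rw [ch_rev]
      ring
    · rintro ⟨rfl, rfl⟩
      have hlen : i + 2 ≤ A.length := by
        by_contra hcon
        have : str (und [(Kind.X s, i, x), (Kind.X (!s), i, y)]) A.length = none := by
          unfold und
          simp only [List.map_cons, str, Kind.i]
          rw [if_neg hcon]
        rw [this] at hL1
        simp at hL1
      obtain ⟨P, a, b, Q, rfl, hl⟩ := cut2 hlen
      refine ⟨P, a, b, Q, - ch D s a b, rfl, hl, ?_, by ring⟩
      rw [run_X hy]
      refine ⟨P, b, a, Q, 0, rfl, hl, ?_, ?_⟩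
      · rw [run_nil]
        exact ⟨rfl, rfl⟩
      · rw [ch_rev]
        ring
  | r3 i s t u x y z hst =>
    have hx : D.fr x = true := hfr (.X s, i, x) (by simp) rfl
    have hy : D.fr y = true := hfr (.X t, i + 1, y) (by simp) rfl
    have hz : D.fr z = true := hfr (.X u, i, z) (by simp) rfl
    rw [run_X hx, run_X hz]
    constructor
    · rintro ⟨P, a, b, Q, q', rfl, hl, h, rfl⟩
      rw [run_X hy] at h
      obtain ⟨P', a', c, Q', q'', e, hl', h', rfl⟩ := h
      have e1 : (P ++ [b]) ++ a :: Q = P' ++ a' :: c :: Q' := by simpa using e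
      obtain ⟨rfl, e2⟩ := List.append_inj e1 (by simp; omega)
      simp only [List.cons.injEq] at e2
      obtain ⟨rfl, rfl⟩ := e2
      rw [run_X hz] at h'
      obtain ⟨P2, b2, c2, Q2, q2, e3, hl2, h2, rfl⟩ := h'
      have e4 : P ++ b :: c :: (a :: Q') = P2 ++ b2 :: c2 :: Q2 := by simpa using e3
      obtain ⟨rfl, rfl, rfl, rfl⟩ := spl2 e4 (by omega)
      rw [run_nil] at h2
      obtain ⟨rfl, rfl⟩ := h2
      refine ⟨P ++ [a], b, c, Q', ch D t a c + (ch D s a b + 0), by simp, by simp; omega, ?_, by ring⟩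
      rw [run_X hy]
      refine ⟨P, a, c, b :: Q', ch D s a b + 0, by simp, hl, ?_, rfl⟩
      rw [run_X hx]
      refine ⟨P ++ [c], a, b, Q', 0, by simp, by simp; omega, ?_, rfl⟩
      rw [run_nil]
      simp
    · rintro ⟨P0, b, c, Q, q', rfl, hl, h, rfl⟩
      rw [run_X hy] at h
      obtain ⟨P, a, c', Q', q'', e, hl', h', rfl⟩ := h
      -- P0 = P ++ [a]
      have hP0 : P0.length = P.length + 1 := by omega
      obtain ⟨P0', a0, rfl⟩ : ∃ P' a', P0 = P' ++ [a'] := by
        refine ⟨P0.dropLast, P0.getLast (by intro h0; rw [h0] at hP0; simp at hP0), ?_⟩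
        rw [List.dropLast_append_getLast]
      have e1 : P0' ++ a0 :: c :: (b :: Q) = P ++ a :: c' :: Q' := by simpa using e
      have hl0 : P0'.length = P.length := by simpa using hP0
      obtain ⟨rfl, rfl, rfl, rfl⟩ := spl2 e1 hl0
      rw [run_X hx] at h'
      obtain ⟨P2, a2, b2, Q2, q2, e3, hl2, h2, rfl⟩ := h'
      have e4 : (P0' ++ [c]) ++ a0 :: b :: Q = P2 ++ a2 :: b2 :: Q2 := by simpa using e3
      obtain ⟨rfl, rfl, rfl, rfl⟩ := spl2 e4 (by simp; omega)
      rw [run_nil] at h2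
      obtain ⟨rfl, rfl⟩ := h2
      refine ⟨P0', a0, b, c :: Q, ch D t a0 c + (ch D u b c + 0), by simp, by omega, ?_, by ring⟩
      rw [run_X hy]
      refine ⟨P0' ++ [b], a0, c, Q, ch D u b c + 0, by simp, by simp; omega, ?_, rfl⟩
      rw [run_X hz]
      refine ⟨P0', b, c, a0 :: Q, 0, by simp, by omega, ?_, rfl⟩
      rw [run_nil]
      simp

end Pool.Agent.Helper78.LK
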